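import Pool.Agent.W606.SN.Stm

set_option autoImplicit false

namespace Pool.Agent.W427.SN

open Pool.Agent.W606.SN

theorem main : S_POT := by
  intro F T GF GT hF hpF hpT W w hsymm htri
  have h2 : (2 : ZMod 2) = 0 := by decide
  choose g hg using fun v : T => hpF (fun a b => w (a, v) (b, v)) (fun a b => hsymm _ _)
  obtain ⟨u0⟩ := hF.nonempty
  obtain ⟨k, hk⟩ := hpT (fun v v' => g v u0 + g v' u0 + w (u0, v) (u0, v')) (by
    intro a b
    show g a u0 + g b u0 + w (u0, a) (u0, b) = g b u0 + g a u0 + w (u0, b) (u0, a)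
    rw [hsymm (u0, a) (u0, b)]
    ring)
  -- `w p p = 0`
  have hpp : ∀ p : F × T, p.2 ∈ W → w p p = 0 := by
    intro p hp
    have := htri p p p hp hp hp (RP.refl _ _ _) (RP.refl _ _ _) (RP.refl _ _ _)
    linear_combination this
  -- `D` is constant
  have hD1 : ∀ v ∈ W, ∀ v' ∈ W, GT.Adj v v' → ∀ u u', GF.Adj u u' →
      g v u + g v' u + w (u, v) (u, v') = g v u' + g v' u' + w (u', v) (u', v') := by
    intro v hv v' hv' hvv u u' huu
    have e1 := hg v u u' huu
    have e2 := hg v' u u' huu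
    have t1 := htri (u, v) (u', v) (u', v') hv hv hv' ⟨Or.inr huu, Or.inl rfl⟩
      ⟨Or.inl rfl, Or.inr hvv⟩ ⟨Or.inr huu, Or.inr hvv⟩
    have t2 := htri (u, v) (u, v') (u', v') hv hv' hv' ⟨Or.inl rfl, Or.inr hvv⟩
      ⟨Or.inr huu, Or.inl rfl⟩ ⟨Or.inr huu, Or.inr hvv⟩
    linear_combination e1 + e2 + t1 + t2 +
      (w (u, v) (u', v') - w (u', v) (u', v') - g v u' - g v' u') * h2
  have hD : ∀ v ∈ W, ∀ v' ∈ W, GT.Adj v v' → ∀ u u',
      g v u + g v' u + w (u, v) (u, v') = g v u' + g v' u' + w (u', v) (u', v') := by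
    intro v hv v' hv' hvv u u'
    obtain ⟨p⟩ := hF.preconnected u u'
    induction p with
    | nil => rfl
    | cons h _ ih => exact (hD1 v hv v' hv' hvv _ _ h).trans ih
  refine ⟨fun p => g p.2 p.1 + k p.2, ?_⟩
  have same : ∀ u v v', v ∈ W → v' ∈ W → GT.Adj v v' →
      g v u + k v + (g v' u + k v') = w (u, v) (u, v') := by
    intro u v v' hv hv' hvv
    have e1 := hk v v' hvv
    have e2 := hD v hv v' hv' hvv u u0
    linear_combination e1 - e2 + (g v u + g v' u) * h2
  rintro ⟨u, v⟩ ⟨u', v'⟩ hv hv' ⟨huu, hvv⟩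
  simp only at hv hv' huu hvv ⊢
  rcases hvv with hvv | hvv
  · subst hvv
    rcases huu with huu | huu
    · subst huu
      rw [hpp _ hv]
      linear_combination (g v u + k v) * h2
    · have e1 := hg v u u' huu
      linear_combination e1 + k v * h2
  · rcases huu with huu | huu
    · subst huu
      exact same u v v' hv hv' hvv
    · have e1 := hg v u u' huu
      have e2 := same u' v v' hv hv' hvv
      have t := htri (u, v) (u', v) (u', v') hv hv hv' ⟨Or.inr huu, Or.inl rfl⟩
        ⟨Or.inl rfl, Or.inr hvv⟩ ⟨Or.inr huu, Or.inr hvv⟩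
      linear_combination e1 + e2 + t - g v u' * h2

end Pool.Agent.W427.SN
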